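import Pool.Agent.Lib.MLS.Add53

set_option autoImplicit false

/-!
# The multiplicative large sieve for primitive characters
-/

namespace Pool.Agent.MLS

open Finset
open scoped ComplexConjugate Classical

/-! ### Duality -/

/-- duality -/
lemma dual {ι : Type} (S : Finset ι) (z : ι → ℂ) (N : ℕ) (D : ℝ) (hD : 0 ≤ D)
    (h : ∀ b : ι → ℂ, ∑ m ∈ range N, ‖∑ i ∈ S, b i * z i ^ m‖ ^ 2 ≤ D * ∑ i ∈ S, ‖b i‖ ^ 2)
    (a : ℕ → ℂ) :
    ∑ i ∈ S, ‖∑ m ∈ range N, a m * z i ^ m‖ ^ 2 ≤ D * ∑ m ∈ range N, ‖a m‖ ^ 2 := by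
  set T : ι → ℂ := fun i => ∑ m ∈ range N, a m * z i ^ m with hT
  set U : ℝ := ∑ i ∈ S, ‖T i‖ ^ 2 with hU
  set V : ℕ → ℂ := fun m => ∑ i ∈ S, conj (T i) * z i ^ m with hV
  have hU0 : 0 ≤ U := sum_nonneg fun _ _ => sq_nonneg _
  have h1 : ∑ m ∈ range N, ‖V m‖ ^ 2 ≤ D * U := by
    have := h (fun i => conj (T i))
    simpa [hV, hU, Complex.norm_conj] using this
  have h2 : (U : ℂ) = ∑ m ∈ range N, a m * V m := by
    have e1 : (U : ℂ) = ∑ i ∈ S, conj (T i) * T i := by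
      rw [hU]
      push_cast
      refine sum_congr rfl fun i _ => ?_
      rw [Complex.conj_mul']
    rw [e1, hV]
    simp only [hT, mul_sum]
    rw [sum_comm]
    refine sum_congr rfl fun m _ => sum_congr rfl fun i _ => ?_
    ring
  have h3 : U ≤ ∑ m ∈ range N, ‖a m‖ * ‖V m‖ := by
    calc U = ‖(U : ℂ)‖ := by rw [Complex.norm_real, Real.norm_of_nonneg hU0]
      _ = ‖∑ m ∈ range N, a m * V m‖ := by rw [h2]
      _ ≤ ∑ m ∈ range N, ‖a m * V m‖ := norm_sum_le _ _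
      _ = _ := sum_congr rfl fun m _ => norm_mul _ _
  have h4 : U ^ 2 ≤ (∑ m ∈ range N, ‖a m‖ ^ 2) * (D * U) := by
    calc U ^ 2 ≤ (∑ m ∈ range N, ‖a m‖ * ‖V m‖) ^ 2 := pow_le_pow_left₀ hU0 h3 2
      _ ≤ (∑ m ∈ range N, ‖a m‖ ^ 2) * ∑ m ∈ range N, ‖V m‖ ^ 2 :=
          sum_mul_sq_le_sq_mul_sq _ _ _
      _ ≤ _ := mul_le_mul_of_nonneg_left h1 (sum_nonneg fun _ _ => sq_nonneg _)
  rcases hU0.eq_or_lt with h0 | h0
  · rw [← h0]
    exact mul_nonneg hD (sum_nonneg fun _ _ => sq_nonneg _)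
  · have h5 : U * U ≤ (D * ∑ m ∈ range N, ‖a m‖ ^ 2) * U := by nlinarith [h4]
    exact le_of_mul_le_mul_right h5 h0

/-! ### Parseval -/

/-- Parseval for all characters modulo `q` -/
lemma parseval {q : ℕ} [NeZero q] (f : ZMod q → ℂ) :
    ∑ χ : DirichletCharacter ℂ q, ‖∑ b : ZMod q, χ b * f b‖ ^ 2 =
      q.totient * ∑ b ∈ univ.filter (fun b : ZMod q => IsUnit b), ‖f b‖ ^ 2 := by
  have h : ((∑ χ : DirichletCharacter ℂ q, ‖∑ b : ZMod q, χ b * f b‖ ^ 2 : ℝ) : ℂ) =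
      ((q.totient * ∑ b ∈ univ.filter (fun b : ZMod q => IsUnit b), ‖f b‖ ^ 2 : ℝ) : ℂ) := by
    push_cast
    have e1 : ∀ χ : DirichletCharacter ℂ q, ((‖∑ b : ZMod q, χ b * f b‖ : ℝ) : ℂ) ^ 2 =
        ∑ b : ZMod q, ∑ c : ZMod q, (conj (f b) * f c) * (χ⁻¹ b * χ c) := by
      intro χ
      rw [← Complex.conj_mul', map_sum, sum_mul_sum]
      refine sum_congr rfl fun b _ => sum_congr rfl fun c _ => ?_
      rw [map_mul]
      have : conj (χ b) = χ⁻¹ b := MulChar.star_apply' χ b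
      rw [this]
      ring
    rw [sum_congr rfl fun χ _ => e1 χ, sum_comm]
    rw [mul_sum, sum_filter]
    refine sum_congr rfl fun b _ => ?_
    rw [sum_comm]
    split_ifs with hu
    · have e2 : ∀ c : ZMod q, ∑ χ : DirichletCharacter ℂ q, (conj (f b) * f c) * (χ⁻¹ b * χ c) =
          if b = c then (conj (f b) * f c) * (q.totient : ℂ) else 0 := by
        intro c
        rw [← mul_sum]
        have := DirichletCharacter.sum_char_inv_mul_char_eq ℂ hu c
        have e3 : ∑ χ : DirichletCharacter ℂ q, χ⁻¹ b * χ c =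
            ∑ χ : DirichletCharacter ℂ q, χ b⁻¹ * χ c := by
          refine sum_congr rfl fun χ _ => ?_
          obtain ⟨u, rfl⟩ := hu
          rw [MulChar.inv_apply, Ring.inverse_unit, ZMod.inv_coe_unit]
        rw [e3, this]
        split_ifs <;> simp
      rw [sum_congr rfl fun c _ => e2 c, sum_ite_eq univ b]
      simp only [mem_univ, if_true]
      rw [Complex.conj_mul']
      ring
    · refine sum_eq_zero fun c _ => sum_eq_zero fun χ _ => ?_
      rw [MulChar.map_nonunit _ hu]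
      ring
  exact_mod_cast h

/-- Parseval for the additive characters modulo `q` -/
lemma parseval_add {q : ℕ} [NeZero q] (g : ZMod q → ℂ) :
    ∑ a : ZMod q, ‖∑ b : ZMod q, g b * ZMod.stdAddChar (a * b)‖ ^ 2 =
      q * ∑ b : ZMod q, ‖g b‖ ^ 2 := by
  have h : ((∑ a : ZMod q, ‖∑ b : ZMod q, g b * ZMod.stdAddChar (a * b)‖ ^ 2 : ℝ) : ℂ) =
      ((q * ∑ b : ZMod q, ‖g b‖ ^ 2 : ℝ) : ℂ) := by
    push_cast
    have e1 : ∀ a : ZMod q, ((‖∑ b : ZMod q, g b * ZMod.stdAddChar (a * b)‖ : ℝ) : ℂ) ^ 2 =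
        ∑ b : ZMod q, ∑ c : ZMod q, (conj (g b) * g c) * ZMod.stdAddChar (a * (c - b)) := by
      intro a
      rw [← Complex.conj_mul', map_sum, sum_mul_sum]
      refine sum_congr rfl fun b _ => sum_congr rfl fun c _ => ?_
      rw [map_mul, ← AddChar.map_neg_eq_conj]
      have e2 : (ZMod.stdAddChar (a * (c - b)) : ℂ) =
          ZMod.stdAddChar (-(a * b)) * ZMod.stdAddChar (a * c) := by
        rw [← AddChar.map_add_eq_mul]
        congr 1
        ring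
      rw [e2]
      ring
    rw [sum_congr rfl fun a _ => e1 a, sum_comm, mul_sum]
    refine sum_congr rfl fun b _ => ?_
    rw [sum_comm]
    have e3 : ∀ c : ZMod q, ∑ a : ZMod q, (conj (g b) * g c) * ZMod.stdAddChar (a * (c - b)) =
        if b = c then (conj (g b) * g c) * (q : ℂ) else 0 := by
      intro c
      rw [← mul_sum, AddChar.sum_mulShift _ (ZMod.isPrimitive_stdAddChar q), ZMod.card]
      by_cases hbc : b = c
      · rw [if_pos hbc, if_pos (sub_eq_zero.2 hbc.symm)]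
      · rw [if_neg hbc, if_neg (fun h => hbc (sub_eq_zero.1 h).symm)]
        simp
    rw [sum_congr rfl fun c _ => e3 c, sum_ite_eq univ b]
    simp only [mem_univ, if_true]
    rw [Complex.conj_mul']
    ring
  exact_mod_cast h

/-- the absolute value of the Gauss sum of a primitive character -/
lemma gauss_norm {q : ℕ} [NeZero q] (χ : DirichletCharacter ℂ q) (hχ : χ.IsPrimitive) :
    ‖gaussSum χ ZMod.stdAddChar‖ ^ 2 = q := by
  set τ := gaussSum χ ZMod.stdAddChar with hτ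
  have h1 : ∀ a : ZMod q, ‖∑ b : ZMod q, χ b * ZMod.stdAddChar (a * b)‖ ^ 2 =
      ‖χ a‖ ^ 2 * ‖τ‖ ^ 2 := by
    intro a
    have h2 := gaussSum_mulShift_of_isPrimitive (e := ZMod.stdAddChar) hχ a
    have h3 : gaussSum χ (ZMod.stdAddChar.mulShift a) =
        ∑ b : ZMod q, χ b * ZMod.stdAddChar (a * b) := by
      rw [gaussSum]
      refine sum_congr rfl fun b _ => ?_
      rw [AddChar.mulShift_apply]
    have h4 : ‖χ⁻¹ a‖ = ‖χ a‖ := by
      have : conj (χ a) = χ⁻¹ a := MulChar.star_apply' χ a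
      rw [← this, Complex.norm_conj]
    rw [← h3, h2, norm_mul, mul_pow, h4]
  have h2 := parseval_add (fun b : ZMod q => χ b)
  rw [sum_congr rfl fun a _ => h1 a, ← sum_mul] at h2
  have h3 : 0 < ∑ b : ZMod q, ‖χ b‖ ^ 2 := by
    have h4 : ‖χ 1‖ ^ 2 ≤ ∑ b : ZMod q, ‖χ b‖ ^ 2 :=
      single_le_sum (f := fun b : ZMod q => ‖χ b‖ ^ 2) (fun _ _ => sq_nonneg _) (mem_univ 1)
    rw [map_one, norm_one] at h4
    linarith
  rw [mul_comm (q : ℝ)] at h2
  exact mul_left_cancel₀ h3.ne' h2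

/-- the additive sum -/
noncomputable def SS (S : Finset ℕ) (a : ℕ → ℂ) (z : ℂ) : ℂ := ∑ n ∈ S, a n * z ^ n

/-- one modulus -/
lemma one_modulus {q : ℕ} [NeZero q] (S : Finset ℕ) (a : ℕ → ℂ) :
    (q : ℝ) / q.totient * ∑ χ ∈ univ.filter (fun χ : DirichletCharacter ℂ q => χ.IsPrimitive),
      ‖∑ n ∈ S, a n * χ n‖ ^ 2 ≤
    ∑ b ∈ univ.filter (fun b : ZMod q => IsUnit b), ‖SS S a (ZMod.stdAddChar b)‖ ^ 2 := by
  have hq0 : (0 : ℝ) < q := by exact_mod_cast Nat.pos_of_ne_zero (NeZero.ne q)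
  have ht0 : (0 : ℝ) < q.totient := by
    exact_mod_cast Nat.totient_pos.2 (Nat.pos_of_ne_zero (NeZero.ne q))
  set f : ZMod q → ℂ := fun b => SS S a (ZMod.stdAddChar b) with hf
  have h1 : ∀ χ : DirichletCharacter ℂ q, χ.IsPrimitive →
      q * ‖∑ n ∈ S, a n * χ n‖ ^ 2 = ‖∑ b : ZMod q, χ⁻¹ b * f b‖ ^ 2 := by
    intro χ hχ
    have hχ' : (χ⁻¹).IsPrimitive := by
      rw [DirichletCharacter.isPrimitive_def] at hχ ⊢
      rw [DirichletCharacter.conductor_inv]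
      exact hχ
    have e : ∑ b : ZMod q, χ⁻¹ b * f b =
        gaussSum χ⁻¹ ZMod.stdAddChar * ∑ n ∈ S, a n * χ n := by
      simp only [hf, SS, mul_sum]
      rw [sum_comm]
      refine sum_congr rfl fun n _ => ?_
      have e1 := gaussSum_mulShift_of_isPrimitive (e := ZMod.stdAddChar) hχ' (n : ZMod q)
      rw [inv_inv] at e1
      have e2 : ∑ b : ZMod q, χ⁻¹ b * (a n * ZMod.stdAddChar b ^ n) =
          a n * gaussSum χ⁻¹ (ZMod.stdAddChar.mulShift (n : ZMod q)) := by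
        rw [gaussSum, mul_sum]
        refine sum_congr rfl fun b _ => ?_
        rw [AddChar.mulShift_apply, ← AddChar.map_nsmul_eq_pow, nsmul_eq_mul]
        ring
      rw [e2, e1]
      ring
    rw [e, norm_mul, mul_pow, gauss_norm _ hχ']
  rw [div_mul_eq_mul_div, div_le_iff₀ ht0, mul_sum]
  calc ∑ χ ∈ univ.filter (fun χ : DirichletCharacter ℂ q => χ.IsPrimitive),
        (q : ℝ) * ‖∑ n ∈ S, a n * χ n‖ ^ 2
      = ∑ χ ∈ univ.filter (fun χ : DirichletCharacter ℂ q => χ.IsPrimitive),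
        ‖∑ b : ZMod q, χ⁻¹ b * f b‖ ^ 2 :=
        sum_congr rfl fun χ hχ => h1 χ (mem_filter.1 hχ).2
    _ ≤ ∑ χ : DirichletCharacter ℂ q, ‖∑ b : ZMod q, χ⁻¹ b * f b‖ ^ 2 :=
        sum_le_sum_of_subset_of_nonneg (filter_subset _ _) fun _ _ _ => sq_nonneg _
    _ = ∑ χ : DirichletCharacter ℂ q, ‖∑ b : ZMod q, χ b * f b‖ ^ 2 :=
        Equiv.sum_comp (Equiv.inv (DirichletCharacter ℂ q))
          (fun χ => ‖∑ b : ZMod q, χ b * f b‖ ^ 2)
    _ = q.totient * ∑ b ∈ univ.filter (fun b : ZMod q => IsUnit b), ‖f b‖ ^ 2 := parseval f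
    _ = _ := mul_comm _ _

/-! ### Separation -/

/-- the points -/
noncomputable def pt (i : Σ _ : ℕ, ℕ) : ℂ := Complex.exp (2 * Real.pi * Complex.I * i.2 / i.1)

lemma pt_norm (i : Σ _ : ℕ, ℕ) : ‖pt i‖ = 1 := by
  unfold pt
  have : (2 * Real.pi * Complex.I * i.2 / i.1 : ℂ) =
      ((2 * Real.pi * i.2 / i.1 : ℝ) : ℂ) * Complex.I := by
    push_cast
    ring
  rw [this, Complex.norm_exp_ofReal_mul_I]

lemma sin_lb {t d : ℝ} (hd : 0 < d) (h1 : d ≤ t) (h2 : t ≤ 1 - d) :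
    2 * d ≤ Real.sin (Real.pi * t) := by
  have hpi := Real.pi_pos
  rcases le_total t (1 / 2) with h | h
  · have := Real.mul_le_sin (x := Real.pi * t) (by nlinarith) (by nlinarith)
    refine le_trans ?_ this
    rw [div_mul_eq_mul_div, le_div_iff₀ hpi]
    nlinarith
  · have := Real.mul_le_sin (x := Real.pi * (1 - t)) (by nlinarith) (by nlinarith)
    have h3 : Real.sin (Real.pi * (1 - t)) = Real.sin (Real.pi * t) := by
      rw [mul_sub, mul_one, Real.sin_pi_sub]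
    rw [h3] at this
    refine le_trans ?_ this
    rw [div_mul_eq_mul_div, le_div_iff₀ hpi]
    nlinarith

lemma dist_exp (α β : ℝ) :
    ‖Complex.exp (2 * Real.pi * Complex.I * α) - Complex.exp (2 * Real.pi * Complex.I * β)‖ =
      2 * |Real.sin (Real.pi * (α - β))| := by
  have h1 : Complex.exp (2 * Real.pi * Complex.I * α) -
      Complex.exp (2 * Real.pi * Complex.I * β) =
      Complex.exp (((2 * Real.pi * β : ℝ) : ℂ) * Complex.I) *
        (Complex.exp (Complex.I * ((2 * Real.pi * (α - β) : ℝ) : ℂ)) - 1) := by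
    rw [mul_sub, ← Complex.exp_add, mul_one]
    congr 1
    · congr 1
      push_cast
      ring
    · congr 1
      push_cast
      ring
  rw [h1, norm_mul, Complex.norm_exp_ofReal_mul_I, one_mul,
    Complex.norm_exp_I_mul_ofReal_sub_one, norm_mul, Real.norm_eq_abs, Real.norm_eq_abs,
    abs_of_pos (by norm_num : (0 : ℝ) < 2)]
  congr 3
  ring

/-- distinct reduced fractions are separated on the circle -/
lemma sep {Q q r b c : ℕ} (hq : 1 ≤ q) (hr : 1 ≤ r) (hqQ : q ≤ Q) (hrQ : r ≤ Q)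
    (hb : b.Coprime q) (hbq : b < q) (hc : c.Coprime r) (hcr : c < r)
    (hne : (⟨q, b⟩ : Σ _ : ℕ, ℕ) ≠ ⟨r, c⟩) :
    1 / (Q : ℝ) ^ 2 ≤ ‖pt ⟨q, b⟩ - pt ⟨r, c⟩‖ := by
  have hq0 : (0 : ℝ) < q := by exact_mod_cast hq
  have hr0 : (0 : ℝ) < r := by exact_mod_cast hr
  have hx0 : (0 : ℝ) < Q := by exact_mod_cast hq.trans hqQ
  have hp : ∀ i : Σ _ : ℕ, ℕ,
      pt i = Complex.exp (2 * Real.pi * Complex.I * ((i.2 / i.1 : ℝ) : ℂ)) := by
    intro i
    unfold pt
    congr 1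
    push_cast
    ring
  rw [hp, hp, dist_exp]
  simp only
  set k : ℤ := (b : ℤ) * r - c * q with hk
  have hk0 : k ≠ 0 := by
    intro h0
    have h1 : b * r = c * q := by
      have : (b : ℤ) * r = c * q := by linarith
      exact_mod_cast this
    have h2 : q ∣ r := (Nat.Coprime.dvd_mul_left hb.symm).1 ⟨c, by rw [h1]; ring⟩
    have h3 : r ∣ q := (Nat.Coprime.dvd_mul_left hc.symm).1 ⟨b, by rw [← h1]; ring⟩
    have h4 : q = r := Nat.dvd_antisymm h2 h3
    subst h4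
    have h5 : b = c := Nat.eq_of_mul_eq_mul_right hq h1
    exact hne (by rw [h5])
  have hdiff : (b / q : ℝ) - c / r = k / (q * r) := by
    rw [hk]
    push_cast
    field_simp
  rw [hdiff]
  have hb' : ((b : ℕ) : ℤ) < q := by exact_mod_cast hbq
  have hc' : ((c : ℕ) : ℤ) < r := by exact_mod_cast hcr
  have hb1 : (0 : ℤ) ≤ b := by positivity
  have hc1 : (0 : ℤ) ≤ c := by positivity
  have hq1 : (1 : ℤ) ≤ q := by exact_mod_cast hq
  have hr1 : (1 : ℤ) ≤ r := by exact_mod_cast hr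
  have hk1 : |k| ≤ q * r - 1 := by
    rw [abs_le]
    constructor
    · rw [hk]
      nlinarith
    · rw [hk]
      nlinarith
  have hk2 : 1 ≤ |k| := Int.one_le_abs hk0
  have hk1' : |(k : ℝ)| ≤ q * r - 1 := by exact_mod_cast hk1
  have hk2' : 1 ≤ |(k : ℝ)| := by exact_mod_cast hk2
  have hqr : (0 : ℝ) < q * r := mul_pos hq0 hr0
  have h5 : |Real.sin (Real.pi * (k / (q * r)))| =
      |Real.sin (Real.pi * (|(k : ℝ)| / (q * r)))| := by
    rcases abs_choice (k : ℝ) with h | h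
    · rw [h]
    · rw [h, neg_div, mul_neg, Real.sin_neg, abs_neg]
  rw [h5]
  have h6 := sin_lb (t := |(k : ℝ)| / (q * r)) (d := 1 / (q * r)) (by positivity)
    (by gcongr) (by
      rw [div_le_iff₀ hqr, sub_mul, one_mul, one_div, inv_mul_cancel₀ hqr.ne']
      exact hk1')
  have h7 : 1 / (Q : ℝ) ^ 2 ≤ 1 / (q * r) := by
    apply one_div_le_one_div_of_le hqr
    rw [sq]
    have h8 : (q : ℝ) ≤ Q := by exact_mod_cast hqQ
    have h9 : (r : ℝ) ≤ Q := by exact_mod_cast hrQ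
    gcongr
  have h8 := le_abs_self (Real.sin (Real.pi * (|(k : ℝ)| / (q * r))))
  have h9 : 0 < 1 / (q * r : ℝ) := by positivity
  linarith

/-- a sum over a shifted range -/
lemma shift (M N : ℕ) (S : Finset ℕ) (hS : S ⊆ Ico M (M + N)) {β : Type} [AddCommMonoid β]
    (f : ℕ → β) :
    ∑ m ∈ range N, (if M + m ∈ S then f (M + m) else 0) = ∑ n ∈ S, f n := by
  rw [← sum_filter]
  refine sum_nbij' (fun m => M + m) (fun n => n - M) ?_ ?_ ?_ ?_ ?_
  · intro m hm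
    exact (mem_filter.1 hm).2
  · intro n hn
    have := mem_Ico.1 (hS hn)
    rw [mem_filter, mem_range]
    have e : M + (n - M) = n := by omega
    rw [e]
    exact ⟨by omega, hn⟩
  · intro m _
    omega
  · intro n hn
    have := mem_Ico.1 (hS hn)
    omega
  · intro m _
    rfl

/-- **The multiplicative large sieve** (filter form). -/
theorem mls_filter : ∃ C : ℝ, 0 < C ∧ ∀ (Q M N : ℕ) (S : Finset ℕ) (a : ℕ → ℂ), 1 ≤ N →
    S ⊆ Ico M (M + N) →
    ∑ q ∈ Icc 1 Q, (q : ℝ) / q.totient *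
      ∑ χ ∈ univ.filter (fun χ : DirichletCharacter ℂ q => χ.IsPrimitive),
        ‖∑ n ∈ S, a n * χ n‖ ^ 2 ≤ C * (N + (Q : ℝ) ^ 2) * ∑ n ∈ S, ‖a n‖ ^ 2 := by
  obtain ⟨C, hC, hL⟩ := lsv
  refine ⟨C, hC, ?_⟩
  intro Q M N S a hN hS
  rcases Nat.eq_zero_or_pos Q with hQ | hQ
  · subst hQ
    simp only [Nat.lt_one_iff, Nat.one_ne_zero, Icc_eq_empty_of_lt, Nat.zero_lt_one, sum_empty]
    positivity
  have hx0 : (0 : ℝ) < Q := by exact_mod_cast hQ
  set I : Finset (Σ _ : ℕ, ℕ) :=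
    (Icc 1 Q).sigma fun q => (range q).filter fun b => b.Coprime q with hI
  set D : ℝ := C * (N + (Q : ℝ) ^ 2) with hD
  have hD0 : 0 ≤ D := by positivity
  have hmem : ∀ i ∈ I, 1 ≤ i.1 ∧ i.1 ≤ Q ∧ i.2.Coprime i.1 ∧ i.2 < i.1 := by
    intro i hi
    rw [hI, mem_sigma, mem_Icc, mem_filter, mem_range] at hi
    exact ⟨hi.1.1, hi.1.2, hi.2.2, hi.2.1⟩
  have h1 := dual I pt N D hD0 (by
    intro b
    have := hL (Σ _ : ℕ, ℕ) I pt b (1 / (Q : ℝ) ^ 2) N (by positivity) hN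
      (fun i _ => pt_norm i) (by
        intro i hi j hj hij
        obtain ⟨a1, a2, a3, a4⟩ := hmem i hi
        obtain ⟨b1, b2, b3, b4⟩ := hmem j hj
        exact sep a1 b1 a2 b2 a3 a4 b3 b4 hij)
    rw [one_div_one_div] at this
    exact this)
    (fun m => if M + m ∈ S then a (M + m) else 0)
  have h2 : ∑ m ∈ range N, ‖(if M + m ∈ S then a (M + m) else 0)‖ ^ 2 =
      ∑ n ∈ S, ‖a n‖ ^ 2 := by
    rw [← shift M N S hS]
    refine sum_congr rfl fun m _ => ?_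
    split_ifs <;> simp
  have h3 : ∀ z : ℂ, ‖z‖ = 1 →
      ‖∑ m ∈ range N, (if M + m ∈ S then a (M + m) else 0) * z ^ m‖ = ‖SS S a z‖ := by
    intro z hz
    have e1 : SS S a z = z ^ M *
        ∑ m ∈ range N, (if M + m ∈ S then a (M + m) else 0) * z ^ m := by
      unfold SS
      rw [mul_sum, ← shift M N S hS]
      refine sum_congr rfl fun m _ => ?_
      split_ifs
      · rw [pow_add]
        ring
      · ring
    rw [e1, norm_mul, norm_pow, hz, one_pow, one_mul]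
  rw [h2] at h1
  refine le_trans ?_ h1
  rw [hI, sum_sigma]
  refine sum_le_sum fun q hq => ?_
  have hq1 : 1 ≤ q := (mem_Icc.1 hq).1
  have hne : NeZero q := ⟨by omega⟩
  refine (one_modulus S a).trans (le_of_eq ?_)
  refine sum_nbij' (fun b : ZMod q => b.val) (fun b : ℕ => (b : ZMod q)) ?_ ?_ ?_ ?_ ?_
  · intro b hb
    have hb0 : IsUnit b := (mem_filter.1 hb).2
    rw [mem_filter, mem_range]
    refine ⟨ZMod.val_lt b, ?_⟩
    rw [← ZMod.isUnit_iff_coprime, ZMod.natCast_zmod_val]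
    exact hb0
  · intro b hb
    rw [mem_filter, mem_range] at hb
    rw [mem_filter]
    exact ⟨mem_univ _, (ZMod.isUnit_iff_coprime b q).2 hb.2⟩
  · intro b _
    exact ZMod.natCast_zmod_val b
  · intro b hb
    exact ZMod.val_cast_of_lt (mem_range.1 (mem_filter.1 hb).1)
  · intro b _
    have e1 : ZMod.stdAddChar b = pt ⟨q, b.val⟩ := by
      have := ZMod.stdAddChar_coe (N := q) (b.val : ℤ)
      rw [Int.cast_natCast, ZMod.natCast_zmod_val] at this
      rw [this]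
      unfold pt
      congr 1
    rw [e1, h3 _ (pt_norm _)]

/-- **The multiplicative large sieve.** -/
theorem mls : ∃ C : ℝ, 0 < C ∧ ∀ (Q M N : ℕ) (S : Finset ℕ) (a : ℕ → ℂ), 1 ≤ N →
    S ⊆ Ico M (M + N) →
    ∑ q ∈ Icc 1 Q, (q : ℝ) / q.totient *
      ∑ᶠ (χ : DirichletCharacter ℂ q) (_ : χ.IsPrimitive), ‖∑ n ∈ S, a n * χ n‖ ^ 2 ≤
      C * (N + (Q : ℝ) ^ 2) * ∑ n ∈ S, ‖a n‖ ^ 2 := by
  obtain ⟨C, hC, h⟩ := mls_filter
  refine ⟨C, hC, ?_⟩
  intro Q M N S a hN hS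
  refine le_trans (le_of_eq ?_) (h Q M N S a hN hS)
  refine sum_congr rfl fun q _ => ?_
  congr 1
  rw [finsum_eq_sum_of_fintype, sum_filter]
  refine sum_congr rfl fun χ _ => ?_
  rw [finsum_eq_if]

end Pool.Agent.MLS
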